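import Mathlib

namespace Pool.Agent.Results.MP_eb524a_co.FiniteDisc

theorem result (n : ℕ) (hn : 1 ≤ n) (I : ℕ → List ℝ) (h1 : I 1 = [1])
    (hstep : ∀ t, 1 ≤ t → t < n → ∃ (l₁ l₂ : List ℝ) (a b : ℝ), 0 < a ∧ 0 < b ∧
      I t = l₁ ++ (a + b) :: l₂ ∧ I (t + 1) = l₁ ++ a :: b :: l₂)
    (ρ : ℝ) (hρ : ∀ t, 1 ≤ t → t ≤ n → ∀ x ∈ I t, ∀ y ∈ I t, x / y ≤ ρ) :
    (2 : ℝ) ^ (1 - 1 / (((n + 1) / 2 : ℕ) : ℝ)) ≤ ρ := by
  classical
  have hst : ∀ t, 1 ≤ t → t < n → ∃ (r : Multiset ℝ) (a b : ℝ), 0 < a ∧ 0 < b ∧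
      (I t : Multiset ℝ) = (a + b) ::ₘ r ∧ (I (t + 1) : Multiset ℝ) = a ::ₘ b ::ₘ r := by
    intro t h h'
    obtain ⟨l₁, l₂, a, b, ha, hb, e1, e2⟩ := hstep t h h'
    refine ⟨(l₁ ++ l₂ : List ℝ), a, b, ha, hb, ?_, ?_⟩
    · rw [e1, Multiset.cons_coe, Multiset.coe_eq_coe]
      exact List.perm_middle
    · rw [e2, Multiset.cons_coe, Multiset.cons_coe, Multiset.coe_eq_coe]
      exact List.perm_middle.trans (List.perm_middle.cons a)
  have hpos : ∀ t, t + 1 ≤ n → Multiset.card (I (t + 1) : Multiset ℝ) = t + 1 ∧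
      ∀ x ∈ (I (t + 1) : Multiset ℝ), 0 < x := by
    intro t
    induction t with
    | zero => intro _; simp [h1]
    | succ t ih =>
      intro h
      obtain ⟨r, a, b, ha, hb, e1, e2⟩ := hst (t + 1) (by omega) (by omega)
      obtain ⟨c1, c2⟩ := ih (by omega)
      rw [e1] at c1 c2
      rw [e2]
      simp only [Multiset.card_cons, Multiset.mem_cons, forall_eq_or_imp] at c1 c2 ⊢
      exact ⟨by omega, ha, hb, c2.2⟩
  have hρ' : ∀ t, t + 1 ≤ n → ∀ x ∈ (I (t + 1) : Multiset ℝ), ∀ y ∈ (I (t + 1) : Multiset ℝ),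
      x ≤ ρ * y := by
    intro t h x hx y hy
    exact (div_le_iff₀ ((hpos t h).2 y hy)).1
      (hρ (t + 1) (by omega) h x (by simpa using hx) y (by simpa using hy))
  have hρ1 : 1 ≤ ρ := by simpa [h1] using hρ 1 le_rfl hn
  obtain ⟨m, hm⟩ : ∃ m, (n + 1) / 2 = m + 1 := ⟨(n + 1) / 2 - 1, by omega⟩
  have surv : ∀ j, j ≤ m → ∃ s : Multiset ℝ, s ≤ I (m + 1) ∧ s ≤ I (m + j + 1) ∧
      m + 1 ≤ Multiset.card s + j := by
    intro j
    induction j with
    | zero => exact fun _ => ⟨_, le_rfl, le_rfl, by rw [(hpos m (by omega)).1]⟩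
    | succ j ih =>
      intro h
      obtain ⟨s, s1, s2, s3⟩ := ih (by omega)
      obtain ⟨r, a, b, -, -, e1, e2⟩ := hst (m + j + 1) (by omega) (by omega)
      refine ⟨s.erase (a + b), (Multiset.erase_le _ _).trans s1, ?_, ?_⟩
      · rw [e1] at s2
        rw [← add_assoc, e2]
        exact (Multiset.erase_le_iff_le_cons.2 s2).trans
          ((Multiset.le_cons_self _ _).trans (Multiset.le_cons_self _ _))
      · have := Multiset.card_le_card (Multiset.le_cons_erase s (a + b))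
        rw [Multiset.card_cons] at this
        omega
  obtain ⟨s, s1, s2, s3⟩ := surv m le_rfl
  obtain ⟨y, hy⟩ := Multiset.card_pos_iff_exists_mem.1 (show 0 < Multiset.card s by omega)
  have hy1 := Multiset.mem_of_le s1 hy
  have hy0 := (hpos m (by omega)).2 y hy1
  have mx : ∀ j, j ≤ m → ∀ x ∈ (I (m + j + 1) : Multiset ℝ), x ≤ (ρ / 2) ^ j * (ρ * y) := by
    intro j
    induction j with
    | zero => exact fun _ x hx => by simpa using hρ' m (by omega) x hx y hy1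
    | succ j ih =>
      intro h x hx
      obtain ⟨r, a, b, -, -, e1, e2⟩ := hst (m + j + 1) (by omega) (by omega)
      have k1 := ih (by omega) (a + b) (by rw [e1]; simp)
      have k2 := hρ' (m + j + 1) (by omega) x hx a (by rw [e2]; simp)
      have k3 := hρ' (m + j + 1) (by omega) x hx b (by rw [e2]; simp)
      have k4 := mul_le_mul_of_nonneg_left k1 (show 0 ≤ ρ / 2 by linarith)
      rw [pow_succ]
      nlinarith
  have f1 := mx m le_rfl y (Multiset.mem_of_le s2 hy)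
  have f2 : (2 : ℝ) ^ m ≤ ρ ^ (m + 1) := by
    have : 1 ≤ (ρ / 2) ^ m * ρ := by
      refine le_of_mul_le_mul_right ?_ hy0
      rw [one_mul, mul_assoc]
      exact f1
    rw [div_pow, div_mul_eq_mul_div, le_div_iff₀ (by positivity), one_mul] at this
    rwa [pow_succ]
  rw [hm]
  refine (pow_le_pow_iff_left₀ (by positivity) (by linarith) (Nat.succ_ne_zero m)).1 ?_
  refine le_trans (le_of_eq ?_) f2
  rw [← Real.rpow_natCast, ← Real.rpow_mul (by norm_num), ← Real.rpow_natCast]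
  congr 1
  push_cast
  field_simp
  ring

end Pool.Agent.Results.MP_eb524a_co.FiniteDisc
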